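import Pool.Agent.Helper69.MWF.BasicC

/-!
# MP_80e84b_lc (S14965): xor is primitive recursive
-/

set_option autoImplicit false

namespace Pool.Agent.Helper69.MWF

open Pool.Agent.Helper95.MW

/-- the first `n` bits of `a xor b` -/
def xb (a b n : ℕ) : ℕ :=
  Nat.rec 0 (fun i r => r + (if (a / 2 ^ i) % 2 = (b / 2 ^ i) % 2 then 0 else 2 ^ i)) n

theorem xb_eq (a b n : ℕ) : xb a b n = (a ^^^ b) % 2 ^ n := by
  induction n with
  | zero => simp [xb, Nat.mod_one]
  | succ n ih =>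
    have h1 : xb a b (n + 1) =
      xb a b n + (if (a / 2 ^ n) % 2 = (b / 2 ^ n) % 2 then 0 else 2 ^ n) := rfl
    have h2 : (a ^^^ b) / 2 ^ n % 2 =
        if (a / 2 ^ n) % 2 = (b / 2 ^ n) % 2 then 0 else 1 := by
      have h3 := Nat.testBit_xor a b n
      rw [Nat.testBit_eq_decide_div_mod_eq, Nat.testBit_eq_decide_div_mod_eq,
        Nat.testBit_eq_decide_div_mod_eq] at h3
      have hx : (a ^^^ b) / 2 ^ n % 2 = 0 ∨ (a ^^^ b) / 2 ^ n % 2 = 1 := by omega
      have ha : a / 2 ^ n % 2 = 0 ∨ a / 2 ^ n % 2 = 1 := by omega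
      have hb : b / 2 ^ n % 2 = 0 ∨ b / 2 ^ n % 2 = 1 := by omega
      rcases hx with hx | hx <;> rcases ha with ha | ha <;> rcases hb with hb | hb <;>
        simp [ha, hb, hx] at h3 ⊢
    rw [h1, ih, Nat.mod_pow_succ, h2]
    split_ifs <;> simp

theorem xor_eq_xb (a b : ℕ) : a ^^^ b = xb a b (a + b) := by
  rw [xb_eq, Nat.mod_eq_of_lt]
  have ha : a < 2 ^ (a + b) := lt_of_le_of_lt (Nat.le_add_right _ _) Nat.lt_two_pow_self
  have hb : b < 2 ^ (a + b) := lt_of_le_of_lt (Nat.le_add_left _ _) Nat.lt_two_pow_self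
  exact Nat.xor_lt_two_pow ha hb

theorem primrec_xor : Primrec₂ (fun a b : ℕ => a ^^^ b) := by
  have hpow : Primrec fun p : (ℕ × ℕ) × (ℕ × ℕ) => 2 ^ p.2.1 := by
    have h : Primrec fun n : ℕ => 2 ^ n := by
      refine (Primrec.nat_rec₁ 1 (f := fun _ r : ℕ => r * 2)
        (Primrec.nat_mul.comp Primrec.snd (Primrec.const 2))).of_eq fun n => ?_
      induction n with
      | zero => rfl
      | succ n ih => rw [pow_succ, ← ih]
    exact h.comp (Primrec.fst.comp Primrec.snd)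
  have h1 : Primrec₂ (fun (p : ℕ × ℕ) (q : ℕ × ℕ) => q.2 +
      (if (p.1 / 2 ^ q.1) % 2 = (p.2 / 2 ^ q.1) % 2 then 0 else 2 ^ q.1)) := by
    refine Primrec.nat_add.comp (Primrec.snd.comp Primrec.snd) ?_
    refine Primrec.ite ?_ (Primrec.const 0) hpow
    refine Primrec.eq.comp ?_ ?_
    · exact Primrec.nat_mod.comp (Primrec.nat_div.comp (Primrec.fst.comp Primrec.fst) hpow)
        (Primrec.const 2)
    · exact Primrec.nat_mod.comp (Primrec.nat_div.comp (Primrec.snd.comp Primrec.fst) hpow)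
        (Primrec.const 2)
  have h2 : Primrec fun p : ℕ × ℕ => xb p.1 p.2 (p.1 + p.2) :=
    Primrec.nat_rec' (Primrec.nat_add.comp Primrec.fst Primrec.snd) (Primrec.const 0) h1
  exact h2.of_eq fun p => (xor_eq_xb p.1 p.2).symm

/-- `f xor g ≤ f + g` -/
theorem xr_le_jn (f g : ℕ → ℕ) : LE (xr f g) (jn f g) := by
  rw [le_iff]
  have h : RT (jn f g) (fun n => (jn f g n).unpair.1 ^^^ (jn f g n).unpair.2) :=
    rt_comp (rt_primrec (primrec_xor.comp (Primrec.fst.comp Primrec.unpair)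
      (Primrec.snd.comp Primrec.unpair))) (rt_oracle (jn f g))
  simp only [jn, Nat.unpair_pair] at h
  exact h

theorem xr_le {f g w : ℕ → ℕ} (hf : LE f w) (hg : LE g w) : LE (xr f g) w :=
  (xr_le_jn f g).trans (jn_le hf hg)

end Pool.Agent.Helper69.MWF
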