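import Pool.Agent.Helper69.MWF.KKG
import Pool.Agent.Helper15.MWF.XOR

/-!
# MP_80e84b_lc (S14965): the modules SUB, D2, D3
-/

set_option autoImplicit false

open Topology Set Filter
open Nat.Partrec (Code)

namespace Pool.Agent.Helper69.MWF

open Pool.Agent.Helper95.MW

/-- a subtree of a c.e. tree is c.e. -/
theorem sub (cec : ST_CEC) : ST_SUB := by
  intro J y y' n n' w hn hy h
  by_cases hne : ∃ z ∈ J, z ∈ Cy y' n'
  · have e : SS J y' n' =
        (SS J y n ∩ {m | n' ≤ (dl m).length ∧ tk (dl m) n' = ini y' n'}) ∪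
          {m | ∃ a ∈ (List.range n').map (fun s => ec (ini y' s)), a = m} := by
      ext m
      constructor
      · rintro ⟨z, hz, hzc, s, rfl⟩
        by_cases hs : n' ≤ s
        · refine Or.inl ⟨⟨z, hz, mem_Cy_trans hy (Cy_mono hn hzc), s, rfl⟩, ?_, ?_⟩
          · rw [dl_ec, ini_length]
            exact hs
          · rw [dl_ec, tk_ini hs]
            exact mem_Cy_iff.1 hzc
        · refine Or.inr ⟨_, List.mem_map.2 ⟨s, List.mem_range.2 (by omega), rfl⟩, ?_⟩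
          rw [ini_eq_of_le (by omega) (mem_Cy_iff.1 hzc)]
      · rintro (⟨⟨z, hz, hzc, s, rfl⟩, h1, h2⟩ | ⟨a, ha, rfl⟩)
        · rw [dl_ec, ini_length] at h1
          rw [dl_ec, tk_ini h1] at h2
          exact ⟨z, hz, mem_Cy_iff.2 h2, s, rfl⟩
        · obtain ⟨s, hs, rfl⟩ := List.mem_map.1 ha
          obtain ⟨z, hz, hzc⟩ := hne
          have hs' := List.mem_range.1 hs
          refine ⟨z, hz, hzc, s, ?_⟩
          rw [ini_eq_of_le (by omega) (mem_Cy_iff.1 hzc)]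
    rw [e]
    refine cec.2.1 _ _ _ (cec.1 _ _ _ h (cec.2.2.2.2.1 _ _ ?_)) (cec.2.2.2.2.1 _ _ ?_)
    · refine PrimrecPred.and ?_ ?_
      · exact Primrec.nat_le.comp (Primrec.const n') (Primrec.list_length.comp primrec_dl)
      · exact Primrec.eq.comp (primrec_tk.comp primrec_dl (Primrec.const n'))
          (Primrec.const (ini y' n'))
    · exact (PrimrecRel.exists_mem_list (R := fun a b : ℕ => a = b) Primrec.eq).comp
        (Primrec.const _) Primrec.id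
  · have e : SS J y' n' = {m : ℕ | (0 : ℕ) = 1} := by
      ext m
      constructor
      · rintro ⟨z, hz, hzc, -⟩
        exact absurd ⟨z, hz, hzc⟩ hne
      · intro h0
        exact absurd h0 (by simp)
    rw [e]
    exact cec.2.2.2.2.1 _ _ (Primrec.eq.comp (Primrec.const 0) (Primrec.const 1))

/-! ### measurability -/

theorem meas_jn {α : Type} [MeasurableSpace α] {a b : α → (ℕ → ℕ)} (ha : Measurable a)
    (hb : Measurable b) : Measurable fun p => jn (a p) (b p) := by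
  refine measurable_pi_lambda _ fun n => ?_
  have h1 : Measurable fun x : ℕ × ℕ => Nat.pair x.1 x.2 := Measurable.of_discrete
  exact h1.comp (((measurable_pi_apply n).comp ha).prodMk ((measurable_pi_apply n).comp hb))

theorem meas_xr {α : Type} [MeasurableSpace α] {a b : α → (ℕ → ℕ)} (ha : Measurable a)
    (hb : Measurable b) (e : ℕ → ℕ) : Measurable fun p => xr (a p) (e ∘ b p) := by
  refine measurable_pi_lambda _ fun n => ?_
  have h1 : Measurable fun x : ℕ × ℕ => x.1 ^^^ e x.2 := Measurable.of_discrete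
  exact h1.comp (((measurable_pi_apply n).comp ha).prodMk ((measurable_pi_apply n).comp hb))

/-- the image of the pair with parameters `(k, g)` -/
noncomputable def Ph (F : (ℕ → ℕ) → (ℕ → ℕ)) (e : ℕ → ℕ) (p : (ℕ → ℕ) × (ℕ → ℕ)) : ℕ → ℕ :=
  jn (F p.1) (F (xr p.1 (e ∘ p.2)))

theorem meas_Ph {F : (ℕ → ℕ) → (ℕ → ℕ)} (hF : Measurable F) (e : ℕ → ℕ) :
    Measurable (Ph F e) :=
  meas_jn (hF.comp measurable_fst) (hF.comp (meas_xr measurable_fst measurable_snd e))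

/-- the tree above `q` -/
def SQ (J : Set (ℕ → ℕ)) (q : List ℕ) : Set ℕ :=
  {m | ∃ y ∈ J, ini y q.length = q ∧ m ∈ segs y}

theorem SQ_eq {J : Set (ℕ → ℕ)} {q : List ℕ} {y : ℕ → ℕ} (h : ini y q.length = q) :
    SQ J q = SS J y q.length := by
  ext m
  constructor
  · rintro ⟨z, hz, h1, h2⟩
    exact ⟨z, hz, mem_Cy_iff.2 (h1.trans h.symm), h2⟩
  · rintro ⟨z, hz, h1, h2⟩
    exact ⟨z, hz, (mem_Cy_iff.1 h1).trans h, h2⟩

/-- `(D2)` of the text -/
theorem d2 (hD1 : ST_D1) (hU : ST_UNI2) (hB : ST_BORWC) (hK : ST_KK) (cec : ST_CEC)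
    (hUN : ST_UN) : ST_D2 := by
  intro π F G hπ hR A hA y1 hy1 n1 y2 hy2 n2
  obtain ⟨e, he⟩ : ∃ e : ℕ → ℕ, range e = A := by
    obtain ⟨e, he⟩ := (Set.to_countable A).exists_eq_range hA
    exact ⟨e, he.symm⟩
  obtain ⟨hK1, hK2, hK3, hK4⟩ := hK A F π G hR e he
  -- the open set given by `y1`
  obtain ⟨⟨a1, b1⟩, hab, rfl⟩ := hy1
  obtain ⟨g1, rfl, m1, hm1⟩ := hK3 a1 b1 hab n1
  -- the sets
  let ι := List ℕ × Code
  let V : List ℕ → Prop := fun q =>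
    ∃ y' ∈ JJ A G F, n2 ≤ q.length ∧ y' ∈ Cy y2 n2 ∧ ini y' q.length = q
  let P : ι → Set ((ℕ → ℕ) × (ℕ → ℕ)) := fun i =>
    {p | V i.1 ∧ SQ (JJ A G F) i.1 = WC i.2 (jn (Ph F e p) (fun _ => 0))}
  have hPm : ∀ i, MeasurableSet (P i) := by
    intro i
    by_cases hV : V i.1
    · have h1 : P i = (fun p => jn (Ph F e p) (fun _ => 0)) ⁻¹'
          {f | SQ (JJ A G F) i.1 = WC i.2 f} := by
        ext p
        exact ⟨fun h => h.2, fun h => ⟨hV, h⟩⟩
      rw [h1]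
      exact (meas_jn (meas_Ph hR.meas e) measurable_const) (hB _ _)
    · have h1 : P i = ∅ := by
        ext p
        exact ⟨fun h => hV h.1, fun h => h.elim⟩
      rw [h1]
      exact MeasurableSet.empty
  have hcov : ∀ᶠ p in residual ((ℕ → ℕ) × (ℕ → ℕ)), ∃ i, p ∈ P i := by
    filter_upwards [hK1, hK2] with p hp1 hp2
    have hle : LE (e ∘ p.2) (jn p.1 (xr p.1 (e ∘ p.2))) := by
      have h1 := xr_le_jn p.1 (xr p.1 (e ∘ p.2))
      rwa [xr_xr'] at h1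
    have hce : CEIn A (jn p.1 (xr p.1 (e ∘ p.2))) := by
      rw [← hp2]
      exact cec.2.2.2.2.2.2.1 _ _ hle
    obtain ⟨y', hy', n', hn', hyc, hce'⟩ := hD1 π F G hπ hR A _ hA hce y2 hy2 n2
    have hq : ini y' (ini y' n').length = ini y' n' := by rw [ini_length]
    have h2 : SQ (JJ A G F) (ini y' n') = SS (JJ A G F) y' n' := by
      rw [SQ_eq hq, ini_length]
    have h3 : LE (π (jn p.1 (xr p.1 (e ∘ p.2)))) (jn (Ph F e p) (fun _ => 0)) := by
      refine (pi_jn hπ _ _).1.trans (LE.trans ?_ (le_jn_left _ _))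
      exact jn_mono (hR.te _ hp1.1).2 (hR.te _ hp1.2.1).2
    obtain ⟨c, hc⟩ := ceIn_iff.1 (hce'.mono h3)
    exact ⟨(ini y' n', c), ⟨y', hy', by rw [ini_length]; exact hn', hyc, hq⟩, h2.trans hc⟩
  obtain ⟨⟨q, c⟩, f', g', N, hN, hf', hg', hbox⟩ := hU ι P hPm hcov a1 g1 m1
  -- a generic pair in the box
  obtain ⟨⟨k, g⟩, ⟨hg1, hg2⟩, hk3, hk4⟩ := exists_of_residual2' (hbox.and hK1) f' g' N N
  have hkP := hg1 hk3 hk4
  obtain ⟨y', hy', hq1, hq2, hq3⟩ := hkP.1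
  obtain ⟨m2, hm2⟩ := hK4 k g hg2 N
  have hkf : k ∈ Cy a1 m1 := mem_Cy_trans hf' (Cy_mono hN hk3)
  have hgf : g ∈ Cy g1 m1 := mem_Cy_trans hg' (Cy_mono hN hk4)
  refine ⟨Ph F e (k, g), ⟨(k, xr k (e ∘ g)), hg2, rfl⟩, max n1 m2, le_max_left _ _,
    hm1 k g hkf hgf hg2, y', hy', q.length, hq1, hq2, ?_⟩
  intro y'' hy'' n'' hn'' hyc'' w hw
  rw [← SQ_eq hq3]
  have hun := hUN c _ w (fun _ => 0) hw (le_zero w)
  have key : SQ (JJ A G F) q = {m | ∃ p : List ℕ, ec p ∈ SS (JJ A G F) y'' n'' ∧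
      ∃ s ≤ p.length, (c.eval (Nat.pair m (ec (zp p (ini (fun _ => 0) s) s)))).Dom} := by
    -- generic approximations of elements of `JJ` in the cylinder
    have gen : ∀ z ∈ JJ A G F, z ∈ Cy y'' n'' → ∀ n, ∃ z' ∈ JJ A G F, z' ∈ Cy z n ∧
        SQ (JJ A G F) q = WC c (jn z' (fun _ => 0)) := by
      rintro z ⟨⟨k1, k2⟩, hkk, rfl⟩ hz n
      have hz2 : jn (F k1) (F k2) ∈ Cy (jn (F k) (F (xr k (e ∘ g)))) m2 := by
        refine mem_Cy_trans (Cy_mono (le_max_right n1 m2) hyc'') (Cy_mono ?_ hz)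
        exact (le_max_right _ _).trans hn''
      obtain ⟨g3, hg3, hk1, rfl⟩ := hm2 k1 k2 hkk hz2
      obtain ⟨m3, hm3⟩ := kkg hR e k1 g3 hkk n
      obtain ⟨⟨k5, g5⟩, ⟨h51, h52⟩, h53, h54⟩ :=
        exists_of_residual2' (hbox.and hK1) k1 g3 (max m3 N) (max m3 N)
      have hk5 : k5 ∈ Cy f' N :=
        mem_Cy_trans (mem_Cy_trans hk3 hk1) (Cy_mono (le_max_right _ _) h53)
      have hg5 : g5 ∈ Cy g' N :=
        mem_Cy_trans (mem_Cy_trans hk4 hg3) (Cy_mono (le_max_right _ _) h54)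
      refine ⟨Ph F e (k5, g5), ⟨(k5, xr k5 (e ∘ g5)), h52, rfl⟩, ?_, (h51 hk5 hg5).2⟩
      exact hm3 k5 g5 (Cy_mono (le_max_left _ _) h53) (Cy_mono (le_max_left _ _) h54) h52
    ext m
    constructor
    · intro hm
      obtain ⟨z', hz', hzc, hz2⟩ := gen y'' hy'' (mem_Cy_self _ _) n''
      rw [hz2] at hm
      obtain ⟨s, hs⟩ := hm
      refine ⟨ini z' s, ⟨z', hz', hzc, s, rfl⟩, s, (ini_length z' s).ge, ?_⟩
      rwa [ini_jn z' (fun _ => 0) s s s le_rfl le_rfl]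
    · rintro ⟨p, ⟨z, hz, hzc, t, ht⟩, s, hs, hd⟩
      have hp : p = ini z t := ec_inj ht
      subst hp
      rw [ini_length] at hs
      obtain ⟨z', hz', hzc', hz2⟩ := gen z hz hzc t
      rw [hz2]
      refine ⟨s, ?_⟩
      rw [← ini_jn z' (fun _ => 0) s t s hs le_rfl, mem_Cy_iff.1 hzc']
      exact hd
  rw [key]
  exact hun

/-- `(D3)` of the text -/
theorem d3 (hD2 : ST_D2) (hS : ST_SUB) (hK : ST_KK) : ST_D3 := by
  intro π F G hπ hR A hA
  -- some element of `JJ`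
  obtain ⟨y0, hy0⟩ : (JJ A G F).Nonempty := by
    obtain ⟨e, he⟩ : ∃ e : ℕ → ℕ, range e = A := by
      obtain ⟨e, he⟩ := (Set.to_countable A).exists_eq_range hA
      exact ⟨e, he.symm⟩
    obtain ⟨hK1, -, -, -⟩ := hK A F π G hR e he
    obtain ⟨p, hp, -, -⟩ := exists_of_residual2' hK1 (fun _ => 0) (fun _ => 0) 0 0
    exact ⟨_, (p.1, xr p.1 (e ∘ p.2)), hp, rfl⟩
  obtain ⟨y1, hy1, n1, -, -, z1, hz1, l1, -, -, h1⟩ := hD2 π F G hπ hR A hA y0 hy0 0 y0 hy0 0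
  obtain ⟨y, hy, n, hn, hyc, z, hz, l, hl, hzc, h2⟩ := hD2 π F G hπ hR A hA z1 hz1 l1 y1 hy1 n1
  refine ⟨y, hy, n, ?_⟩
  intro y'' hy'' n'' hn'' hyc'' w hw
  have h3 := h2 y'' hy'' n'' hn'' hyc'' w hw
  have h4 := h1 z hz l hl hzc w h3
  exact hS _ z1 y l1 n w hn hyc h4

end Pool.Agent.Helper69.MWF
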