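import Pool.Agent.Helper69.MWF.Stmts

/-!
# MP_80e84b_lc (S14965): reflexive transitive closure and unions
-/

set_option autoImplicit false

open Nat.Partrec (Code)

namespace Pool.Agent.Helper69.MWF

open Pool.Agent.Helper95.MW

namespace Rtg

/-- entry of a list of triples -/
def D (l : List (ℕ × ℕ × ℕ)) (i : ℕ) : ℕ × ℕ × ℕ := l.getD i (0, 0, 0)

/-- `x.1` is enumerated by `c` relative to `w` with the witness `x.2` -/
def Wit (c : Code) (w : ℕ → ℕ) (m : ℕ) (x : ℕ × ℕ) : Prop :=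
  ev c x.2 (Nat.pair m (ec (ini w x.1))) = true

/-- finite version -/
def wit (c : Code) (wl : List ℕ) (m : ℕ) (x : ℕ × ℕ) : Prop :=
  x.1 ≤ wl.length ∧ ev c x.2 (Nat.pair m (ec (tk wl x.1))) = true

theorem wit_ini (c : Code) (w : ℕ → ℕ) (M m : ℕ) (x : ℕ × ℕ) :
    wit c (ini w M) m x ↔ x.1 ≤ M ∧ Wit c w m x := by
  unfold wit Wit
  rw [ini_length]
  constructor
  · rintro ⟨h1, h2⟩
    rw [tk_ini h1] at h2
    exact ⟨h1, h2⟩
  · rintro ⟨h1, h2⟩
    rw [tk_ini h1]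
    exact ⟨h1, h2⟩

theorem mem_WC_iff {c : Code} {w : ℕ → ℕ} {m : ℕ} : m ∈ WC c w ↔ ∃ x, Wit c w m x := by
  constructor
  · rintro ⟨s, hs⟩
    obtain ⟨t, ht⟩ := (dom_iff_ev c _).1 hs
    exact ⟨(s, t), ht⟩
  · rintro ⟨⟨s, t⟩, h⟩
    exact ⟨s, (dom_iff_ev c _).2 ⟨t, h⟩⟩

/-- the checked condition -/
def Chk (cS cR : Code) (v : ℕ × (List (ℕ × ℕ × ℕ) × ℕ) × List ℕ) : Prop :=
  0 < v.2.1.1.length ∧ (D v.2.1.1 (v.2.1.1.length - 1)).1 = v.1 ∧
    wit cS v.2.2 (D v.2.1.1 0).1 (D v.2.1.1 0).2 ∧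
    ∀ i ∈ List.range (v.2.1.1.length - 1),
      wit cR v.2.2 (Nat.pair (D v.2.1.1 i).1 (D v.2.1.1 (i + 1)).1) (D v.2.1.1 (i + 1)).2

theorem primrec_D : Primrec₂ D := Primrec.list_getD (0, 0, 0)

theorem primrec_wit (c : Code) :
    PrimrecPred (fun v : List ℕ × ℕ × ℕ × ℕ => wit c v.1 v.2.1 v.2.2) := by
  refine PrimrecPred.and ?_ ?_
  · exact Primrec.nat_le.comp (Primrec.fst.comp (Primrec.snd.comp Primrec.snd))
      (Primrec.list_length.comp Primrec.fst)
  · refine Primrec.eq.comp ((primrec_ev c).comp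
      (Primrec.snd.comp (Primrec.snd.comp Primrec.snd)) (Primrec₂.natPair.comp
        (Primrec.fst.comp Primrec.snd) (primrec_ec.comp (primrec_tk.comp Primrec.fst
          (Primrec.fst.comp (Primrec.snd.comp Primrec.snd)))))) (Primrec.const true)

theorem primrec_Chk (cS cR : Code) : PrimrecPred (Chk cS cR) := by
  have hl : Primrec fun v : ℕ × (List (ℕ × ℕ × ℕ) × ℕ) × List ℕ => v.2.1.1 :=
    Primrec.fst.comp (Primrec.fst.comp Primrec.snd)
  have hlen : Primrec fun v : ℕ × (List (ℕ × ℕ × ℕ) × ℕ) × List ℕ => v.2.1.1.length - 1 :=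
    Primrec.nat_sub.comp (Primrec.list_length.comp hl) (Primrec.const 1)
  refine PrimrecPred.and ?_ (PrimrecPred.and ?_ (PrimrecPred.and ?_ ?_))
  · exact Primrec.nat_lt.comp (Primrec.const 0) (Primrec.list_length.comp hl)
  · exact Primrec.eq.comp (Primrec.fst.comp (primrec_D.comp hl hlen)) Primrec.fst
  · have h0 := primrec_D.comp hl (Primrec.const 0)
    exact (primrec_wit cS).comp (Primrec.pair (Primrec.snd.comp Primrec.snd)
      (Primrec.pair (Primrec.fst.comp h0) (Primrec.snd.comp h0)))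
  · have hR : PrimrecRel (fun (i : ℕ) (v : ℕ × (List (ℕ × ℕ × ℕ) × ℕ) × List ℕ) =>
        wit cR v.2.2 (Nat.pair (D v.2.1.1 i).1 (D v.2.1.1 (i + 1)).1)
          (D v.2.1.1 (i + 1)).2) := by
      have h1 : Primrec fun p : ℕ × (ℕ × (List (ℕ × ℕ × ℕ) × ℕ) × List ℕ) =>
          D p.2.2.1.1 p.1 := primrec_D.comp (hl.comp Primrec.snd) Primrec.fst
      have h2 : Primrec fun p : ℕ × (ℕ × (List (ℕ × ℕ × ℕ) × ℕ) × List ℕ) =>
          D p.2.2.1.1 (p.1 + 1) :=
        primrec_D.comp (hl.comp Primrec.snd) (Primrec.succ.comp Primrec.fst)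
      exact (primrec_wit cR).comp (Primrec.pair
        (Primrec.snd.comp (Primrec.snd.comp Primrec.snd))
        (Primrec.pair (Primrec₂.natPair.comp (Primrec.fst.comp h1) (Primrec.fst.comp h2))
          (Primrec.snd.comp h2)))
    exact (PrimrecRel.forall_mem_list hR).comp (Primrec.list_range.comp hlen) Primrec.id

/-- a chain with witnesses -/
def Chain (cS cR : Code) (w : ℕ → ℕ) (b : ℕ) (l : List (ℕ × ℕ × ℕ)) : Prop :=
  0 < l.length ∧ (D l (l.length - 1)).1 = b ∧ Wit cS w (D l 0).1 (D l 0).2 ∧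
    ∀ i, i < l.length - 1 →
      Wit cR w (Nat.pair (D l i).1 (D l (i + 1)).1) (D l (i + 1)).2

theorem chain_sound {cS cR : Code} {w : ℕ → ℕ} {b : ℕ} {l : List (ℕ × ℕ × ℕ)}
    {S : Set ℕ} {R : ℕ → ℕ → Prop} (hS : S = WC cS w)
    (hR : {m : ℕ | R m.unpair.1 m.unpair.2} = WC cR w) (h : Chain cS cR w b l) :
    ∃ a ∈ S, Relation.ReflTransGen R a b := by
  obtain ⟨h1, h2, h3, h4⟩ := h
  refine ⟨(D l 0).1, ?_, ?_⟩
  · rw [hS]
    exact mem_WC_iff.2 ⟨_, h3⟩
  · rw [← h2]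
    have key : ∀ i, i ≤ l.length - 1 → Relation.ReflTransGen R (D l 0).1 (D l i).1 := by
      intro i
      induction i with
      | zero => intro _; exact Relation.ReflTransGen.refl
      | succ i ih =>
        intro hi
        refine (ih (by omega)).tail ?_
        have h5 : Nat.pair (D l i).1 (D l (i + 1)).1 ∈ {m : ℕ | R m.unpair.1 m.unpair.2} := by
          rw [hR]
          exact mem_WC_iff.2 ⟨_, h4 i (by omega)⟩
        simpa using h5
    exact key _ le_rfl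

theorem chain_complete {cS cR : Code} {w : ℕ → ℕ} {a b : ℕ}
    {S : Set ℕ} {R : ℕ → ℕ → Prop} (hS : S = WC cS w)
    (hR : {m : ℕ | R m.unpair.1 m.unpair.2} = WC cR w) (ha : a ∈ S)
    (h : Relation.ReflTransGen R a b) : ∃ l, Chain cS cR w b l := by
  induction h with
  | refl =>
    rw [hS] at ha
    obtain ⟨x, hx⟩ := mem_WC_iff.1 ha
    refine ⟨[(a, x)], by simp, by simp [D], by simpa [D] using hx, ?_⟩
    intro i hi
    simp at hi
  | @tail b c hab hbc ih =>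
    obtain ⟨l, h1, h2, h3, h4⟩ := ih
    have h5 : Nat.pair b c ∈ WC cR w := by
      rw [← hR]
      simpa using hbc
    obtain ⟨x, hx⟩ := mem_WC_iff.1 h5
    have hlt : ∀ i, i < l.length → D (l ++ [(c, x)]) i = D l i := by
      intro i hi
      unfold D
      rw [List.getD_append _ _ _ _ hi]
    have heq : D (l ++ [(c, x)]) l.length = (c, x) := by
      unfold D
      rw [List.getD_append_right _ _ _ _ le_rfl]
      simp
    refine ⟨l ++ [(c, x)], by simp, ?_, ?_, ?_⟩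
    · simp only [List.length_append, List.length_cons, List.length_nil, zero_add,
        Nat.add_sub_cancel]
      rw [heq]
    · rw [hlt 0 h1]
      exact h3
    · intro i hi
      simp only [List.length_append, List.length_cons, List.length_nil, zero_add,
        Nat.add_sub_cancel] at hi
      rcases Nat.lt_or_ge i (l.length - 1) with h6 | h6
      · rw [hlt i hi, hlt (i + 1) (by omega)]
        exact h4 i h6
      · have h7 : i = l.length - 1 := by omega
        have h8 : i + 1 = l.length := by omega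
        rw [hlt i hi, h8, heq, h7, h2]
        exact hx

theorem exists_bound (l : List (ℕ × ℕ × ℕ)) : ∃ M, ∀ i, (D l i).2.1 ≤ M := by
  refine ⟨((List.range l.length).map (fun i => (D l i).2.1)).sum, fun i => ?_⟩
  rcases Nat.lt_or_ge i l.length with h | h
  · refine List.single_le_sum (by simp) _ ?_
    exact List.mem_map.2 ⟨i, List.mem_range.2 h, rfl⟩
  · unfold D
    rw [List.getD_eq_default _ _ h]
    exact Nat.zero_le _

end Rtg

open Classical in
theorem rtg : ST_RTG := by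
  intro S R w hS hR
  obtain ⟨cS, hcS⟩ := ceIn_iff.1 hS
  obtain ⟨cR, hcR⟩ := ceIn_iff.1 hR
  have h := ceIn_search (α := List (ℕ × ℕ × ℕ) × ℕ) (fun v => decide (Rtg.Chk cS cR v))
    (Rtg.primrec_Chk cS cR).decide (fun T => T.2) Primrec.snd w
  have e : {n | ∃ T : List (ℕ × ℕ × ℕ) × ℕ,
      decide (Rtg.Chk cS cR (n, T, ini w T.2)) = true} =
      {b | ∃ a ∈ S, Relation.ReflTransGen R a b} := by
    ext b
    simp only [Set.mem_ofPred_eq, decide_eq_true_eq]
    constructor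
    · rintro ⟨⟨l, M⟩, h1, h2, h3, h4⟩
      refine Rtg.chain_sound (l := l) hcS hcR ⟨h1, h2, ?_, ?_⟩
      · exact ((Rtg.wit_ini _ _ _ _ _).1 h3).2
      · intro i hi
        exact ((Rtg.wit_ini _ _ _ _ _).1 (h4 i (List.mem_range.2 hi))).2
    · rintro ⟨a, ha, hab⟩
      obtain ⟨l, h1, h2, h3, h4⟩ := Rtg.chain_complete hcS hcR ha hab
      obtain ⟨M, hM⟩ := Rtg.exists_bound l
      refine ⟨(l, M), h1, h2, ?_, ?_⟩
      · exact (Rtg.wit_ini _ _ _ _ _).2 ⟨hM 0, h3⟩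
      · intro i hi
        exact (Rtg.wit_ini _ _ _ _ _).2 ⟨hM (i + 1), h4 i (List.mem_range.1 hi)⟩
  rw [← e]
  exact h

namespace Un

theorem map_fst (w x : ℕ → ℕ) (M : ℕ) :
    (ini (jn w x) M).map (fun a => a.unpair.1) = ini w M := by
  unfold ini jn
  rw [List.map_map]
  refine List.map_congr_left fun i _ => ?_
  simp

theorem map_snd (w x : ℕ → ℕ) (M : ℕ) :
    (ini (jn w x) M).map (fun a => a.unpair.2) = ini x M := by
  unfold ini jn
  rw [List.map_map]
  refine List.map_congr_left fun i _ => ?_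
  simp

theorem zp_ini (p : List ℕ) (x : ℕ → ℕ) {s M : ℕ} (h : s ≤ M) :
    zp p (ini x M) s = zp p (ini x s) s := by
  unfold zp ini
  refine List.map_congr_left fun i hi => ?_
  have h1 : i < s := List.mem_range.1 hi
  have h2 : i < M := lt_of_lt_of_le h1 h
  simp [h1, h2]

/-- the checked condition: the data are `(p, s, (s₀, t₀), t, M)` -/
def Chk (cS c : Code) (v : ℕ × (List ℕ × ℕ × (ℕ × ℕ) × ℕ × ℕ) × List ℕ) : Prop :=
  Rtg.wit cS (v.2.2.map (fun a => a.unpair.1)) (ec v.2.1.1) v.2.1.2.2.1 ∧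
    v.2.1.2.1 ≤ v.2.1.1.length ∧ v.2.1.2.1 ≤ v.2.1.2.2.2.2 ∧
    ev c v.2.1.2.2.2.1 (Nat.pair v.1 (ec (zp v.2.1.1 (v.2.2.map (fun a => a.unpair.2))
      v.2.1.2.1))) = true

theorem primrec_Chk (cS c : Code) : PrimrecPred (Chk cS c) := by
  have hp : Primrec fun v : ℕ × (List ℕ × ℕ × (ℕ × ℕ) × ℕ × ℕ) × List ℕ => v.2.1.1 :=
    Primrec.fst.comp (Primrec.fst.comp Primrec.snd)
  have hs : Primrec fun v : ℕ × (List ℕ × ℕ × (ℕ × ℕ) × ℕ × ℕ) × List ℕ => v.2.1.2.1 :=
    Primrec.fst.comp (Primrec.snd.comp (Primrec.fst.comp Primrec.snd))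
  have h3 : Primrec fun v : ℕ × (List ℕ × ℕ × (ℕ × ℕ) × ℕ × ℕ) × List ℕ => v.2.1.2.2 :=
    Primrec.snd.comp (Primrec.snd.comp (Primrec.fst.comp Primrec.snd))
  have hl : Primrec fun v : ℕ × (List ℕ × ℕ × (ℕ × ℕ) × ℕ × ℕ) × List ℕ => v.2.2 :=
    Primrec.snd.comp Primrec.snd
  have hw : Primrec fun v : ℕ × (List ℕ × ℕ × (ℕ × ℕ) × ℕ × ℕ) × List ℕ =>
      v.2.2.map (fun a => a.unpair.1) :=
    Primrec.list_map hl (Primrec.fst.comp (Primrec.unpair.comp Primrec.snd))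
  have hx : Primrec fun v : ℕ × (List ℕ × ℕ × (ℕ × ℕ) × ℕ × ℕ) × List ℕ =>
      v.2.2.map (fun a => a.unpair.2) :=
    Primrec.list_map hl (Primrec.snd.comp (Primrec.unpair.comp Primrec.snd))
  refine PrimrecPred.and ?_ (PrimrecPred.and ?_ (PrimrecPred.and ?_ ?_))
  · exact (Rtg.primrec_wit cS).comp (Primrec.pair hw
      (Primrec.pair (primrec_ec.comp hp) (Primrec.fst.comp h3)))
  · exact Primrec.nat_le.comp hs (Primrec.list_length.comp hp)
  · exact Primrec.nat_le.comp hs (Primrec.snd.comp (Primrec.snd.comp h3))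
  · refine Primrec.eq.comp ((primrec_ev c).comp (Primrec.fst.comp (Primrec.snd.comp h3))
      (Primrec₂.natPair.comp Primrec.fst (primrec_ec.comp (primrec_zp.comp
        (Primrec.pair (Primrec.pair hp hx) hs))))) (Primrec.const true)

end Un

open Classical in
theorem un : ST_UN := by
  intro c S w x hS hx
  obtain ⟨cS, hcS⟩ := ceIn_iff.1 hS
  have h := ceIn_search (α := List ℕ × ℕ × (ℕ × ℕ) × ℕ × ℕ)
    (fun v => decide (Un.Chk cS c v)) (Un.primrec_Chk cS c).decide (fun T => T.2.2.2.2)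
    (Primrec.snd.comp (Primrec.snd.comp (Primrec.snd.comp Primrec.snd))) (jn w x)
  have e : {n | ∃ T : List ℕ × ℕ × (ℕ × ℕ) × ℕ × ℕ,
      decide (Un.Chk cS c (n, T, ini (jn w x) T.2.2.2.2)) = true} =
      {m | ∃ p : List ℕ, ec p ∈ S ∧ ∃ s ≤ p.length,
        (c.eval (Nat.pair m (ec (zp p (ini x s) s)))).Dom} := by
    ext m
    simp only [Set.mem_ofPred_eq, decide_eq_true_eq]
    constructor
    · rintro ⟨⟨p, s, x0, t, M⟩, h1, h2, h3, h4⟩
      simp only [Un.map_fst, Un.map_snd] at h1 h2 h3 h4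
      rw [Un.zp_ini p x h3] at h4
      refine ⟨p, ?_, s, h2, (dom_iff_ev c _).2 ⟨t, h4⟩⟩
      rw [hcS]
      exact Rtg.mem_WC_iff.2 ⟨_, ((Rtg.wit_ini _ _ _ _ _).1 h1).2⟩
    · rintro ⟨p, hp, s, hs, hd⟩
      rw [hcS] at hp
      obtain ⟨x0, hx0⟩ := Rtg.mem_WC_iff.1 hp
      obtain ⟨t, ht⟩ := (dom_iff_ev c _).1 hd
      refine ⟨(p, s, x0, t, x0.1 + s), ?_, hs, Nat.le_add_left _ _, ?_⟩
      · simp only [Un.map_fst]
        exact (Rtg.wit_ini _ _ _ _ _).2 ⟨Nat.le_add_right _ _, hx0⟩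
      · simp only [Un.map_snd]
        rw [Un.zp_ini p x (Nat.le_add_left _ _)]
        exact ht
  rw [← e]
  exact h.mono (jn_le (LE.refl w) hx)

end Pool.Agent.Helper69.MWF
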